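import Pool.Agent.H839R3.Bridge

/-!
# Class theory with urelements, Collection and Global Choice is not conservative

There is a sentence of the language of set theory with urelements that holds in all models of
`GBcU_R` + Collection + Global Choice and fails in a model of `ZFCU`. The sentence of the proof says
that the urelements form a set or that there is no bound on the cardinalities of the sets of
urelements (the second part is equivalent to Plenitude over `ZFCU_R`).
-/

namespace Pool.Agent.Results.MP_1b98ab_lc.NotConservative

open FirstOrder FirstOrder.Language
open Pool.Agent.Helper672.ZFA (L)
open Pool.Agent.H839R3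

universe u

theorem result : ∃ σ : L.Sentence,
    (∀ (M C : Type (u + 1)) [L.Structure M] (η : M → C → Prop),
      GBUR M C η → ClassCollection M C η → GlobalChoice M C η → M ⊨ σ) ∧
    ∃ (M : Type (u + 1)) (_ : L.Structure M), ZFCU M ∧ ¬ M ⊨ σ :=
  not_conservative

end Pool.Agent.Results.MP_1b98ab_lc.NotConservative
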